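import Pool.Agent.Run7.h106.AW.Nu

/-!
# Analytic continuation relative to the own radius: polygons weighted by the area
-/

set_option autoImplicit false
set_option linter.unusedVariables false

namespace Run7.h106.AW

open Pool.Agent.H976R2 Pool.Agent.H976R2.Dir Finset Filter Topology
open Pool.Agent.N929.EX Pool.Agent.N929.EY Pool.Agent.N929.EZ
open Pool.Agent.N929.AC (Om xx cs Ext om_star s_omg)
open Pool.Agent.H739K (KP ar lp)
open Run7.h106.AC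
open scoped Classical

noncomputable section

/-- boundedness of `(k + 1) r ^ k` -/
theorem geo_bdd {r : ℝ} (hr0 : 0 ≤ r) (hr : r < 1) : ∃ B : ℝ, ∀ k : ℕ, ((k : ℝ) + 1) * r ^ k ≤ B := by
  have h1 : Summable (fun k : ℕ => ((k : ℝ) ^ 1 * r ^ k)) :=
    summable_pow_mul_geometric_of_norm_lt_one 1 (by rwa [Real.norm_of_nonneg hr0])
  have h2 : Summable (fun k : ℕ => r ^ k) := summable_geometric_of_lt_one hr0 hr
  have h3 := (h1.add h2).tendsto_atTop_zero.bddAbove_range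
  obtain ⟨B, hB⟩ := h3
  refine ⟨B, fun k => ?_⟩
  have := hB ⟨k, rfl⟩
  simp only [pow_one] at this
  linarith

/-- the derived series converges in the same disc -/
theorem summ_of {ν : ℝ} (hν : 1 ≤ ν) {u : ℕ → ℝ} (hu0 : ∀ n, 0 ≤ u n)
    (hz : ∀ m, (∀ n, m ≠ 2 * (n + 2) - 1) → u m = 0)
    (h : ∀ x : ℝ, 0 ≤ x → ν * x < 1 → Summable (fun n : ℕ =>
      u (2 * (n + 2) - 1) / (4 * ((n + 2 : ℕ) : ℝ)) * x ^ (2 * (n + 2)))) :
    ∀ x : ℝ, 0 ≤ x → ν * x < 1 → Summable (fun n => u n * x ^ n) := by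
  intro x hx0 hx
  have hν0 : 0 < ν := by linarith
  have h1 : x < 1 / ν := by
    rw [lt_div_iff₀ hν0, mul_comm]
    exact hx
  obtain ⟨y, hy1, hy2⟩ := exists_between h1
  have hy0 : 0 < y := hx0.trans_lt hy1
  have hy3 : ν * y < 1 := by
    rw [lt_div_iff₀ hν0, mul_comm] at hy2
    exact hy2
  obtain ⟨r, hr⟩ : ∃ r, r = x / y := ⟨_, rfl⟩
  have hxr : x = y * r := by rw [hr]; field_simp
  have hr0 : 0 ≤ r := by rw [hr]; positivity
  have hr1 : r < 1 := by rw [hr, div_lt_one hy0]; exact hy1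
  obtain ⟨B, hB⟩ := geo_bdd hr0 hr1
  have hinj : Function.Injective (fun n : ℕ => 2 * (n + 2) - 1) := fun a b h => by
    simp only at h
    omega
  rw [← hinj.summable_iff]
  · refine Summable.of_nonneg_of_le (fun n => ?_) (fun n => ?_) ((h y hy0.le hy3).mul_right (2 * B / y))
    · exact mul_nonneg (hu0 _) (pow_nonneg hx0 _)
    · show u (2 * (n + 2) - 1) * x ^ (2 * (n + 2) - 1) ≤ _
      have e1 : 2 * (n + 2) = (2 * (n + 2) - 1) + 1 := by omega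
      obtain ⟨k, hk⟩ : ∃ k, k = 2 * (n + 2) - 1 := ⟨_, rfl⟩
      rw [← hk] at e1 ⊢
      rw [e1]
      have e2 : (4 * ((n + 2 : ℕ) : ℝ)) = 2 * ((k : ℝ) + 1) := by
        have : ((2 * (n + 2) : ℕ) : ℝ) = ((k + 1 : ℕ) : ℝ) := by rw [e1]
        push_cast at this ⊢
        linarith
      rw [e2, hxr, mul_pow]
      have hk1 : (0 : ℝ) < (k : ℝ) + 1 := by positivity
      have e3 : u k / (2 * ((k : ℝ) + 1)) * y ^ (k + 1) * (2 * B / y) =
          u k * (y ^ k * (B / ((k : ℝ) + 1))) := by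
        field_simp
        try ring
      rw [e3]
      refine mul_le_mul_of_nonneg_left (mul_le_mul_of_nonneg_left ?_ (by positivity)) (hu0 k)
      rw [le_div_iff₀ hk1, mul_comm]
      exact hB k
  · intro m hm
    rw [hz m (fun n hn => hm ⟨n, hn.symm⟩), zero_mul]

/-- the sums over closed words of other lengths vanish -/
theorem KP_zero {G : List Dir → ℝ} (hG0 : ∀ w, ¬ 3 ≤ w.length → G w = 0) :
    ∀ m, (∀ n, m ≠ 2 * (n + 2) - 1) → ∑ w ∈ KP m, G w = 0 := by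
  intro m hm
  rcases Nat.mod_two_eq_zero_or_one m with he | ho
  · rw [KP_odd he, sum_empty]
  · have hm3 : ¬ 3 ≤ m := fun h3 => hm ((m + 1) / 2 - 2) (by omega)
    refine sum_eq_zero fun w hw => hG0 w ?_
    rw [(KP_mem hw).2.2]
    exact hm3

/-- analytic continuation for functionals of closed words of product form, relative to a free
radius -/
theorem kp5 : ∃ κ : ℝ, 1 < κ ∧ κ ≤ 2 ∧ ∃ c : ℝ, 0 < c ∧ c ≤ 1 / 4 ∧ ∃ C : ℝ, 0 < C ∧
    ∀ ν : ℝ, H981.mu ≤ κ * ν → ν ≤ H981.mu → 1 ≤ ν ∧ ∀ G : List Dir → ℝ, (∀ w, 0 ≤ G w) →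
      (∀ w, G w ≤ 1) → (∀ w, ¬ 3 ≤ w.length → G w = 0) →
      Hq (fun w => Pool.Agent.N929.EZ.cl w * G w) →
      (∀ x : ℝ, 0 ≤ x → ν * x < 1 → Summable (fun n : ℕ =>
        (∑ w ∈ KP (2 * (n + 2) - 1), G w) / (4 * ((n + 2 : ℕ) : ℝ)) * x ^ (2 * (n + 2)))) →
      ∃ F : ℂ → ℂ, DifferentiableOn ℂ F (Om c ν 2) ∧
      (∀ z : ℂ, ν * ‖z‖ < 1 →
        HasSum (fun n : ℕ => (((∑ w ∈ KP (2 * (n + 2) - 1), G w) /
          (4 * ((n + 2 : ℕ) : ℝ)) : ℝ) : ℂ) * z ^ (2 * (n + 2))) (F z)) ∧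
      ∀ z ∈ Om c ν 2, z ≠ 0 → cs 2 z < 1 →
        ‖deriv F z‖ ≤ C + ‖deriv F (xx c ν 2 z : ℂ)‖ := by
  obtain ⟨κ, hκ1, hκ2, c, hc, hc4, C, hC, h⟩ := hq5
  refine ⟨κ, hκ1, hκ2, c, hc, hc4, C, hC, fun ν hν1 hν2 => ?_⟩
  obtain ⟨hν, h'⟩ := h ν hν1 hν2
  refine ⟨hν, fun G hG0 hG1 hG3 hHq hS => ?_⟩
  have e : ∀ n, ∑ w ∈ SW n, Pool.Agent.N929.EZ.cl w * G w = ∑ w ∈ KP n, G w := fun n => sum_cl n G
  have hS' := summ_of hν (u := fun n => ∑ w ∈ KP n, G w) (fun n => sum_nonneg fun w _ => hG0 w)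
    (KP_zero hG3) hS
  obtain ⟨f, f1, f2⟩ := h' (fun w => Pool.Agent.N929.EZ.cl w * G w)
    (fun w => mul_nonneg (cl_nonneg w) (hG0 w))
    (fun w => mul_le_one₀ (cl_le w) (hG0 w) (hG1 w)) hHq
    (fun x hx0 hx => by
      simp only [e]
      exact hS' x hx0 hx)
  simp only [e] at f1
  obtain ⟨F, F1, F2⟩ := poly_nu hc hν hG3 f1
  exact ⟨F, fun z hz => (F1 z hz).differentiableAt.differentiableWithinAt, F2,
    deriv_nu hc hc4 hν hC.le F1 f2⟩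

end

end Run7.h106.AW
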