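import Pool.Agent.Run7.h106.AC.Core
import Pool.Agent.Run7.h106.AC.Asm

/-!
# Analytic continuation for functionals with a product structure along the slots
-/

set_option autoImplicit false
set_option linter.unusedVariables false

namespace Run7.h106.AW

open Pool.Agent.H976R2 Pool.Agent.H976R2.Dir Finset Filter Topology
open Pool.Agent.N929.EX Pool.Agent.N929.EY Pool.Agent.N929.EZ
open Run7.h106.AC
open scoped Classical

noncomputable section

variable {L : Finset (ℤ × ℤ)} {st : List Dir → List Dir}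
  {fl : List Dir → Finset (ℤ × ℤ) → List Dir} {N : ℕ}

/-- the product structure on one class -/
def Mul1 (F : List Dir → ℝ) (fl : List Dir → Finset (ℤ × ℤ) → List Dir)
    (E : Finset (ℤ × ℤ)) (w : List Dir) : Prop :=
  ∃ s : ℤ × ℤ → ℝ, (∀ q, 1 / 2 ≤ s q ∧ s q ≤ 2) ∧ ∀ U ⊆ E, F (fl w U) = F w * ∏ q ∈ U, s q

/-- the functional `F` has a product structure on the classes of every family -/
def Hq (F : List Dir → ℝ) : Prop :=
  ∀ L : Finset (ℤ × ℤ), CF L → ∀ st fl, Fill L 0 0 st fl → ∀ w, Em L 0 0 w →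
    Mul1 F fl (Sl L 0 0 w) w

/-- the bound outside the disc -/
theorem bnd3 (h : Fill L 0 0 st fl) (hL : CF L) {F : List Dir → ℝ} {b : ℕ → ℝ} {C₀ : ℝ}
    {p : ℕ} (hC₀ : 0 ≤ C₀) (hF : ∀ n, ∀ w ∈ SW n, |F w| ≤ C₀ * ((n : ℝ) + 1) ^ p)
    (hF0 : ∀ w, 0 ≤ F w)
    (hrep : ∀ w, Em L 0 0 w → Mul1 F fl (Sl L 0 0 w) w)
    (hb : ∀ n, ∑ w ∈ SW n, F w ≤ b n) (z : ℂ) (x : ℝ) (hx : 0 ≤ x)
    (hs : Summable (fun n => b n * x ^ n)) (c₀ δ : ℝ) (hc₀ : 0 < c₀) (hδ : 0 ≤ δ)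
    (h1 : ‖z‖ ≤ x * Real.exp (c₀ * δ))
    (h2 : ∀ s : ℝ, 1 / 2 ≤ s → s ≤ 2 →
      ‖1 + (s : ℂ) * z ^ 2‖ ≤ (1 + s * x ^ 2) * Real.exp (-δ)) :
    ‖PZ fl F L N z‖ ≤ (∑' n, b n * x ^ n) +
      ∑ m ∈ range (N + 1), (((SW m).filter
        (fun w => ((Sl L 0 0 w).card : ℝ) < c₀ * m)).card : ℝ) *
        (C₀ * (3 * ((m : ℝ) + 1)) ^ p * (‖z‖ * (1 + ‖z‖ ^ 2) ^ c₀) ^ m) := by
  set B : ℝ := ‖z‖ * (1 + ‖z‖ ^ 2) ^ c₀ with hB
  have hB0 : 0 ≤ B := by positivity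
  have hCo : ∀ w ∈ Cz L N, w ∈ SW w.length ∧ w.length ≤ N := fun w hw =>
    ⟨(mem_Cz.1 hw).1.2.1, (mem_Cz.1 hw).2⟩
  have hterm : ∀ w ∈ Cz L N, ‖∑ U ∈ (Sl L 0 0 w).powerset,
      (F (fl w U) : ℂ) * z ^ (w.length + 2 * U.card)‖ ≤
      (∑ U ∈ (Sl L 0 0 w).powerset, F (fl w U) * x ^ (fl w U).length) +
      (if ((Sl L 0 0 w).card : ℝ) < c₀ * w.length then
        C₀ * (3 * ((w.length : ℝ) + 1)) ^ p * B ^ w.length else 0) := by
    intro w hw
    have hwE := (mem_Cz.1 hw).1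
    have hx1 : 0 ≤ ∑ U ∈ (Sl L 0 0 w).powerset, F (fl w U) * x ^ (fl w U).length :=
      Finset.sum_nonneg fun U _ => mul_nonneg (hF0 _) (by positivity)
    set l := w.length with hl
    set k := (Sl L 0 0 w).card with hk
    have hsplit : ∑ U ∈ (Sl L 0 0 w).powerset, (F (fl w U) : ℂ) * z ^ (l + 2 * U.card) =
        z ^ l * ∑ U ∈ (Sl L 0 0 w).powerset, (F (fl w U) : ℂ) * (z ^ 2) ^ U.card := by
      rw [mul_sum]
      refine sum_congr rfl fun U _ => ?_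
      rw [pow_add, pow_mul]
      ring
    split_ifs with hlt
    · have e0 : ‖∑ U ∈ (Sl L 0 0 w).powerset, (F (fl w U) : ℂ) * (z ^ 2) ^ U.card‖ ≤
          C₀ * (3 * ((l : ℝ) + 1)) ^ p * (1 + ‖z‖ ^ 2) ^ k := by
        have hsl := sl_card hL (a := 0) (l := 0) w
        rw [← hk, ← hl] at hsl
        rw [← pow_expand, mul_sum]
        refine (norm_sum_le _ _).trans (sum_le_sum fun U hU => ?_)
        rw [mem_powerset] at hU
        have hUc := card_le_card hU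
        have h4 := hF _ (fl w U) (h.fl_sw w U hwE hU)
        rw [norm_mul, norm_pow, norm_pow, Complex.norm_real, Real.norm_eq_abs]
        refine mul_le_mul_of_nonneg_right (h4.trans ?_) (by positivity)
        refine mul_le_mul_of_nonneg_left (pow_le_pow_left₀ (by positivity) ?_ p) hC₀
        have h5 : w.length + 2 * U.card + 1 ≤ 3 * (l + 1) := by omega
        exact_mod_cast h5
      have hbase : 1 ≤ 1 + ‖z‖ ^ 2 := by
        have : 0 ≤ ‖z‖ ^ 2 := by positivity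
        linarith
      have e2 : (1 + ‖z‖ ^ 2) ^ k ≤ ((1 + ‖z‖ ^ 2) ^ c₀) ^ l := by
        calc (1 + ‖z‖ ^ 2) ^ k = (1 + ‖z‖ ^ 2) ^ (k : ℝ) := (Real.rpow_natCast _ _).symm
          _ ≤ (1 + ‖z‖ ^ 2) ^ (c₀ * l) := Real.rpow_le_rpow_of_exponent_le hbase hlt.le
          _ = ((1 + ‖z‖ ^ 2) ^ c₀) ^ l := by
              rw [Real.rpow_mul (by linarith), Real.rpow_natCast]
      have e3 : ‖z‖ ^ l * (C₀ * (3 * ((l : ℝ) + 1)) ^ p * (1 + ‖z‖ ^ 2) ^ k) ≤
          C₀ * (3 * ((l : ℝ) + 1)) ^ p * B ^ l := by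
        rw [hB, mul_pow ‖z‖]
        calc ‖z‖ ^ l * (C₀ * (3 * ((l : ℝ) + 1)) ^ p * (1 + ‖z‖ ^ 2) ^ k)
            = C₀ * (3 * ((l : ℝ) + 1)) ^ p * (‖z‖ ^ l * (1 + ‖z‖ ^ 2) ^ k) := by ring
          _ ≤ _ := by gcongr
      rw [hsplit, norm_mul, norm_pow]
      have e4 := mul_le_mul_of_nonneg_left e0 (show 0 ≤ ‖z‖ ^ l by positivity)
      linarith
    · have hge : c₀ * l ≤ k := not_lt.1 hlt
      rw [add_zero, hsplit, norm_mul, norm_pow]
      obtain ⟨s, hs1, hs2⟩ := hrep w hwE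
      have e5 : ∑ U ∈ (Sl L 0 0 w).powerset, (F (fl w U) : ℂ) * (z ^ 2) ^ U.card =
          (F w : ℂ) * ∏ q ∈ Sl L 0 0 w, (1 + (s q : ℂ) * z ^ 2) := by
        rw [Finset.prod_one_add, mul_sum]
        refine sum_congr rfl fun U hU => ?_
        rw [hs2 U (mem_powerset.1 hU)]
        push_cast
        rw [Finset.prod_mul_distrib, Finset.prod_const, mul_assoc]
      have e6 : ∑ U ∈ (Sl L 0 0 w).powerset, F (fl w U) * x ^ (fl w U).length =
          x ^ l * (F w * ∏ q ∈ Sl L 0 0 w, (1 + s q * x ^ 2)) := by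
        rw [Finset.prod_one_add, mul_sum, mul_sum]
        refine sum_congr rfl fun U hU => ?_
        rw [mem_powerset] at hU
        rw [h.fl_len w U hwE hU, hs2 U hU, Finset.prod_mul_distrib, Finset.prod_const, ← hl,
          pow_add, pow_mul]
        ring
      have e0 : ‖∑ U ∈ (Sl L 0 0 w).powerset, (F (fl w U) : ℂ) * (z ^ 2) ^ U.card‖ ≤
          F w * ((∏ q ∈ Sl L 0 0 w, (1 + s q * x ^ 2)) * Real.exp (-δ) ^ k) := by
        rw [e5, norm_mul, Complex.norm_real, Real.norm_of_nonneg (hF0 w), norm_prod]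
        refine mul_le_mul_of_nonneg_left ?_ (hF0 w)
        rw [hk, ← Finset.prod_const, ← Finset.prod_mul_distrib]
        exact Finset.prod_le_prod (fun q _ => norm_nonneg _)
          (fun q _ => h2 (s q) (hs1 q).1 (hs1 q).2)
      have e1 : ‖z‖ ^ l ≤ (x * Real.exp (c₀ * δ)) ^ l := pow_le_pow_left₀ (norm_nonneg _) h1 _
      have e4 : Real.exp (c₀ * δ) ^ l * Real.exp (-δ) ^ k ≤ 1 := by
        rw [← Real.exp_nat_mul, ← Real.exp_nat_mul, ← Real.exp_add]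
        rw [Real.exp_le_one_iff]
        have : c₀ * l * δ ≤ k * δ := mul_le_mul_of_nonneg_right hge hδ
        linarith
      have e7 : 0 ≤ x ^ l * (F w * ∏ q ∈ Sl L 0 0 w, (1 + s q * x ^ 2)) := by
        rw [← e6]; exact hx1
      rw [e6]
      calc ‖z‖ ^ l * ‖∑ U ∈ (Sl L 0 0 w).powerset, (F (fl w U) : ℂ) * (z ^ 2) ^ U.card‖
          ≤ (x * Real.exp (c₀ * δ)) ^ l *
            (F w * ((∏ q ∈ Sl L 0 0 w, (1 + s q * x ^ 2)) * Real.exp (-δ) ^ k)) :=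
            mul_le_mul e1 e0 (norm_nonneg _) (by positivity)
        _ = x ^ l * (F w * ∏ q ∈ Sl L 0 0 w, (1 + s q * x ^ 2)) *
            (Real.exp (c₀ * δ) ^ l * Real.exp (-δ) ^ k) := by
            rw [mul_pow]; ring
        _ ≤ x ^ l * (F w * ∏ q ∈ Sl L 0 0 w, (1 + s q * x ^ 2)) * 1 :=
            mul_le_mul_of_nonneg_left e4 e7
        _ = _ := mul_one _
  have hfirst : ∑ w ∈ Cz L N, ∑ U ∈ (Sl L 0 0 w).powerset, F (fl w U) * x ^ (fl w U).length ≤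
      ∑' n, b n * x ^ n := by
    rw [← sumTZ h (fun v => F v * x ^ v.length)]
    have h6 := grp F (fun _ _ _ => hF0 _) b hb (TZ fl L N) 0
      (fun w hw => ⟨TZ_mem h hw, Nat.zero_le _⟩) x hx hs
    simpa only [Nat.add_zero] using h6
  have hsec : ∑ w ∈ Cz L N,
      (if ((Sl L 0 0 w).card : ℝ) < c₀ * w.length then
        C₀ * (3 * ((w.length : ℝ) + 1)) ^ p * B ^ w.length else 0) ≤
      ∑ m ∈ range (N + 1), (((SW m).filter
        (fun w => ((Sl L 0 0 w).card : ℝ) < c₀ * m)).card : ℝ) *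
        (C₀ * (3 * ((m : ℝ) + 1)) ^ p * B ^ m) := by
    rw [← Finset.sum_filter]
    have hdisj : Set.PairwiseDisjoint (↑(range (N + 1)) : Set ℕ) (fun m => (SW m).filter
        (fun w => ((Sl L 0 0 w).card : ℝ) < c₀ * m)) := by
      intro m _ m' _ hne
      rw [Function.onFun, Finset.disjoint_left]
      intro w hw hw'
      rw [Finset.mem_filter] at hw hw'
      exact hne ((len_SW hw.1).symm.trans (len_SW hw'.1))
    have hinner : ∑ m ∈ range (N + 1), (((SW m).filter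
        (fun w => ((Sl L 0 0 w).card : ℝ) < c₀ * m)).card : ℝ) *
        (C₀ * (3 * ((m : ℝ) + 1)) ^ p * B ^ m) =
        ∑ w ∈ (range (N + 1)).biUnion (fun m => (SW m).filter
        (fun w => ((Sl L 0 0 w).card : ℝ) < c₀ * m)),
          C₀ * (3 * ((w.length : ℝ) + 1)) ^ p * B ^ w.length := by
      rw [Finset.sum_biUnion hdisj]
      refine Finset.sum_congr rfl (fun m _ => ?_)
      rw [← nsmul_eq_mul, ← sum_const]
      refine Finset.sum_congr rfl (fun w hw => ?_)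
      rw [len_SW (Finset.mem_filter.1 hw).1]
    rw [hinner]
    refine Finset.sum_le_sum_of_subset_of_nonneg ?_ ?_
    · intro w hw
      rw [Finset.mem_filter] at hw
      obtain ⟨hw1, hw2⟩ := hCo w hw.1
      rw [Finset.mem_biUnion]
      exact ⟨w.length, Finset.mem_range.2 (by omega), Finset.mem_filter.2 ⟨hw1, hw.2⟩⟩
    · intro w hw _
      positivity
  unfold PZ
  calc ‖∑ w ∈ Cz L N, ∑ U ∈ (Sl L 0 0 w).powerset,
        (F (fl w U) : ℂ) * z ^ (w.length + 2 * U.card)‖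
      ≤ ∑ w ∈ Cz L N, ‖∑ U ∈ (Sl L 0 0 w).powerset,
        (F (fl w U) : ℂ) * z ^ (w.length + 2 * U.card)‖ := norm_sum_le _ _
    _ ≤ ∑ w ∈ Cz L N, ((∑ U ∈ (Sl L 0 0 w).powerset, F (fl w U) * x ^ (fl w U).length) +
      (if ((Sl L 0 0 w).card : ℝ) < c₀ * w.length then
        C₀ * (3 * ((w.length : ℝ) + 1)) ^ p * B ^ w.length else 0)) :=
        Finset.sum_le_sum hterm
    _ = ∑ w ∈ Cz L N, ∑ U ∈ (Sl L 0 0 w).powerset, F (fl w U) * x ^ (fl w U).length +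
      ∑ w ∈ Cz L N, (if ((Sl L 0 0 w).card : ℝ) < c₀ * w.length then
        C₀ * (3 * ((w.length : ℝ) + 1)) ^ p * B ^ w.length else 0) :=
        Finset.sum_add_distrib
    _ ≤ _ := add_le_add hfirst hsec

end

end Run7.h106.AW
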