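import Pool.Agent.Run7.h106.AW.Ang
import Pool.Agent.Run7.h106.AW.Core

/-!
# The assembly of the analytic continuation, for functionals with a product structure
-/

set_option autoImplicit false
set_option linter.unusedVariables false

namespace Run7.h106.AW

open Pool.Agent.H976R2 Pool.Agent.H976R2.Dir Finset Filter Topology
open Pool.Agent.N929.EX Pool.Agent.N929.EY Pool.Agent.N929.EZ
open Pool.Agent.N929.AC (Om xx cs)
open Pool.Agent.N738.AC (sum_pp avg_le consts)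
open Run7.h106.AC
open scoped Classical

noncomputable section

/-- the average over the families -/
theorem ex_P3 (μ c₀ θ C C₀ : ℝ) (p : ℕ)
    (hc₀ : 0 < c₀) (hθ : 0 < θ) (hμ : 1 ≤ μ) (hC : 0 < C) (hC₀ : 0 ≤ C₀) (θ₂ : ℝ)
    (h20 : 0 ≤ θ₂) (h21 : θ₂ < 1) (F : List Dir → ℝ) (b : ℕ → ℝ)
    (hF : ∀ n, ∀ w ∈ SW n, |F w| ≤ C₀ * ((n : ℝ) + 1) ^ p)
    (hF0 : ∀ w, 0 ≤ F w)
    (hb : ∀ n, ∑ w ∈ SW n, F w ≤ b n)
    (hr : Hq F) (N : ℕ)
    (ι : Type) [Fintype ι] [Nonempty ι] (Λ : ι → Finset (ℤ × ℤ)) (hCF : ∀ i, CF (Λ i))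
    (hfew : ∀ m ≤ N, ∑ i, (((SW m).filter
      (fun w => ((Sl (Λ i) 0 0 w).card : ℝ) < c₀ * m)).card : ℝ) ≤
        C * (θ * μ) ^ m * Fintype.card ι) :
    ∃ P : ℂ → ℂ, Differentiable ℂ P ∧
      (∀ (z : ℂ) (x : ℝ), 0 ≤ x → Summable (fun n => b n * x ^ n) → ‖z‖ ≤ x →
        ‖P z‖ ≤ ∑' n, b n * x ^ n) ∧
      (∀ (z : ℂ) (x δ : ℝ), 0 ≤ x → Summable (fun n => b n * x ^ n) → 0 ≤ δ →
        ‖z‖ ≤ x * Real.exp (c₀ * δ) → (∀ s : ℝ, 1 / 2 ≤ s → s ≤ 2 →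
          ‖1 + (s : ℂ) * z ^ 2‖ ≤ (1 + s * x ^ 2) * Real.exp (-δ)) →
        θ * μ * (‖z‖ * (1 + ‖z‖ ^ 2) ^ c₀) ≤ θ₂ →
        ‖P z‖ ≤ (∑' n, b n * x ^ n) +
          ∑' m : ℕ, C₀ * C * 3 ^ p * (((m : ℝ) + 1) ^ p * θ₂ ^ m)) ∧
      (∀ z : ℂ, Summable (fun n => b n * ‖z‖ ^ n) →
        ‖P z - ∑ n ∈ range (N + 1), (az F n : ℂ) * z ^ n‖ ≤
          ∑' n, b (n + (N + 1)) * ‖z‖ ^ (n + (N + 1))) := by
  have hcard : (0 : ℝ) < Fintype.card ι := by exact_mod_cast Fintype.card_pos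
  have hcardC : (Fintype.card ι : ℂ) ≠ 0 := by exact_mod_cast hcard.ne'
  have hbij : ∀ i, ∃ (st : List Dir → List Dir) (fl : List Dir → Finset (ℤ × ℤ) → List Dir),
      Fill (Λ i) 0 0 st fl := fun i => s_bij (Λ i) (hCF i) 0 0
  choose st fl hfl using hbij
  have hM' := fun i => hr (Λ i) (hCF i) (st i) (fl i) (hfl i)
  have hb' : ∀ n, ∑ w ∈ SW n, |F w| ≤ b n := fun n => by
    rw [sum_congr rfl fun w _ => abs_of_nonneg (hF0 w)]
    exact hb n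
  refine ⟨fun z => (Fintype.card ι : ℂ)⁻¹ * ∑ i, PZ (fl i) F (Λ i) N z, ?_, ?_, ?_, ?_⟩
  · unfold PZ
    fun_prop
  · intro z x hx hs hz
    refine (avg_le _ (fun _ => ∑' n, b n * x ^ n) fun i =>
      bnd1 (hfl i) hb' z x hx hs hz).trans (le_of_eq ?_)
    rw [Finset.sum_const, Finset.card_univ, nsmul_eq_mul, ← mul_assoc, inv_mul_cancel₀ hcard.ne',
      one_mul]
  · intro z x δ hx hs hδ h1 h2 h3
    set y : ℝ := ‖z‖ * (1 + ‖z‖ ^ 2) ^ c₀ with hy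
    have hy0 : 0 ≤ y := by positivity
    set T : ℝ := ∑' n, b n * x ^ n with hT
    refine (avg_le _ (fun i => T + ∑ m ∈ range (N + 1), (((SW m).filter
      (fun w => ((Sl (Λ i) 0 0 w).card : ℝ) < c₀ * m)).card : ℝ) *
        (C₀ * (3 * ((m : ℝ) + 1)) ^ p * y ^ m)) fun i =>
      bnd3 (hfl i) (hCF i) hC₀ hF hF0 (hM' i) hb z x hx hs c₀ δ hc₀ hδ h1 h2).trans ?_
    rw [Finset.sum_add_distrib, Finset.sum_const, Finset.card_univ, nsmul_eq_mul, mul_add,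
      ← mul_assoc, inv_mul_cancel₀ hcard.ne', one_mul]
    refine add_le_add le_rfl ?_
    rw [inv_mul_le_iff₀ hcard, Finset.sum_comm]
    have hsum : Summable (fun m : ℕ => C₀ * C * 3 ^ p * (((m : ℝ) + 1) ^ p * θ₂ ^ m)) :=
      (sum_pp p θ₂ h20 h21).mul_left _
    have h4 : ∑ m ∈ range (N + 1), C₀ * C * 3 ^ p * (((m : ℝ) + 1) ^ p * θ₂ ^ m)
        ≤ ∑' m : ℕ, C₀ * C * 3 ^ p * (((m : ℝ) + 1) ^ p * θ₂ ^ m) :=
      hsum.sum_le_tsum _ fun m _ => by positivity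
    refine le_trans ?_ (mul_le_mul_of_nonneg_left h4 hcard.le)
    rw [Finset.mul_sum]
    refine Finset.sum_le_sum fun m hm => ?_
    have hmN : m ≤ N := by
      have := Finset.mem_range.1 hm
      omega
    calc ∑ i, (((SW m).filter (fun w => ((Sl (Λ i) 0 0 w).card : ℝ) < c₀ * m)).card : ℝ) *
            (C₀ * (3 * ((m : ℝ) + 1)) ^ p * y ^ m)
        = (∑ i, (((SW m).filter (fun w => ((Sl (Λ i) 0 0 w).card : ℝ) < c₀ * m)).card : ℝ)) *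
            (C₀ * (3 * ((m : ℝ) + 1)) ^ p * y ^ m) := by rw [Finset.sum_mul]
      _ ≤ (C * (θ * μ) ^ m * Fintype.card ι) * (C₀ * (3 * ((m : ℝ) + 1)) ^ p * y ^ m) :=
          mul_le_mul_of_nonneg_right (hfew m hmN) (by positivity)
      _ = Fintype.card ι * (C₀ * C * 3 ^ p * (((m : ℝ) + 1) ^ p * (θ * μ * y) ^ m)) := by
          rw [mul_pow (θ * μ) y m, mul_pow 3 ((m : ℝ) + 1) p]
          ring
      _ ≤ Fintype.card ι * (C₀ * C * 3 ^ p * (((m : ℝ) + 1) ^ p * θ₂ ^ m)) := by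
          refine mul_le_mul_of_nonneg_left (mul_le_mul_of_nonneg_left
            (mul_le_mul_of_nonneg_left (pow_le_pow_left₀ (by positivity) h3 m) (by positivity))
            (by positivity)) hcard.le
  · intro z hs
    have h1 : (Fintype.card ι : ℂ)⁻¹ * ∑ i, PZ (fl i) F (Λ i) N z -
        ∑ n ∈ range (N + 1), (az F n : ℂ) * z ^ n =
        (Fintype.card ι : ℂ)⁻¹ * ∑ i, (PZ (fl i) F (Λ i) N z -
          ∑ n ∈ range (N + 1), (az F n : ℂ) * z ^ n) := by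
      rw [Finset.sum_sub_distrib, Finset.sum_const, Finset.card_univ, nsmul_eq_mul, mul_sub,
        ← mul_assoc _ (Fintype.card ι : ℂ), inv_mul_cancel₀ hcardC, one_mul]
    simp only []
    rw [h1]
    refine (avg_le _ (fun _ => ∑' n, b (n + (N + 1)) * ‖z‖ ^ (n + (N + 1))) fun i =>
      cnv (hfl i) hb' z hs).trans (le_of_eq ?_)
    rw [Finset.sum_const, Finset.card_univ, nsmul_eq_mul, ← mul_assoc, inv_mul_cancel₀ hcard.ne',
      one_mul]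

/-- analytic continuation for functionals -/
theorem acz3 {μ K : ℝ} (hμ : 1 ≤ μ) (hK : 0 ≤ K) (hupp : ∀ m n : ℕ, 2 ≤ n → m ≤ n →
      ((SW m).card : ℝ) ≤ 4 * (μ ^ m * Real.exp (K * Real.log n ^ 2))) :
    ∃ c : ℝ, 0 < c ∧ c ≤ 1 / 4 ∧ ∀ (C₀ : ℝ) (p : ℕ), 0 ≤ C₀ → ∃ C : ℝ, 0 < C ∧
      ∀ (F : List Dir → ℝ) (b : ℕ → ℝ),
      (∀ n, ∀ w ∈ SW n, |F w| ≤ C₀ * ((n : ℝ) + 1) ^ p) →
      (∀ w, 0 ≤ F w) → (∀ n, ∑ w ∈ SW n, F w ≤ b n) →
      (∀ n, b n ≤ C₀ * ((n : ℝ) + 1) ^ p * ((SW n).card : ℝ)) → Hq F →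
      ∃ f : ℂ → ℂ, DifferentiableOn ℂ f (Om c μ 2) ∧
        (∀ z : ℂ, μ * ‖z‖ < 1 → HasSum (fun n => (az F n : ℂ) * z ^ n) (f z)) ∧
        ∀ z ∈ Om c μ 2, z ≠ 0 → cs 2 z < 1 →
          Summable (fun n => b n * xx c μ 2 z ^ n) ∧
          ‖f z‖ ≤ C + ∑' n, b n * xx c μ 2 z ^ n := by
  have hμ0 : 0 < μ := by linarith
  obtain ⟨c₀, θ, C, hc₀, hθ, hθ1, hC, hfewN⟩ := fewz hμ hK hupp
  obtain ⟨c₀', c₂, θ₂, hc₀', hcc, hc₂, h20, h21, hθ₂⟩ := consts θ c₀ 2 hθ hθ1 hc₀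
  obtain ⟨k, hk, c₁, hc₁, hangc⟩ := ang3 μ c₀' hμ hc₀'
  set c : ℝ := min (min c₁ (1 / 4)) c₂ with hcdef
  have hc : 0 < c := lt_min (lt_min hc₁ (by norm_num)) hc₂
  have hcc1 : c ≤ c₁ := (min_le_left _ _).trans (min_le_left _ _)
  have hc4 : c ≤ 1 / 4 := (min_le_left _ _).trans (min_le_right _ _)
  have hcc2 : c ≤ c₂ := min_le_right _ _
  obtain ⟨hO1, hO2, hO3, hcs, hcsc⟩ := Pool.Agent.N189.AC.omg c μ 2 hc hμ (by norm_num)
  refine ⟨c, hc, hc4, fun C₀ p hC₀ => ?_⟩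
  have hsum2 : Summable (fun m : ℕ => C₀ * C * 3 ^ p * (((m : ℝ) + 1) ^ p * θ₂ ^ m)) :=
    (sum_pp p θ₂ h20 h21).mul_left _
  set D : ℝ := ∑' m : ℕ, C₀ * C * 3 ^ p * (((m : ℝ) + 1) ^ p * θ₂ ^ m) with hD
  have hD0 : 0 ≤ D := tsum_nonneg fun m => by positivity
  refine ⟨1 + D, by linarith, fun F b hF hF0 hb hb2 hr => ?_⟩
  have hb' : ∀ n, ∑ w ∈ SW n, |F w| ≤ b n := fun n => by
    rw [sum_congr rfl fun w _ => abs_of_nonneg (hF0 w)]
    exact hb n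
  have haa : ∀ n, 0 ≤ b n := fun n => (Finset.sum_nonneg fun _ _ => hF0 _).trans (hb n)
  have hS : ∀ x : ℝ, 0 ≤ x → μ * x < 1 → Summable (fun n => b n * x ^ n) :=
    grw hμ hK hupp b C₀ p hC₀ haa hb2
  -- the polynomials
  have hexP : ∀ N : ℕ, ∃ P : ℂ → ℂ, Differentiable ℂ P ∧
      (∀ (z : ℂ) (x : ℝ), 0 ≤ x → Summable (fun n => b n * x ^ n) → ‖z‖ ≤ x →
        ‖P z‖ ≤ ∑' n, b n * x ^ n) ∧
      (∀ (z : ℂ) (x δ : ℝ), 0 ≤ x → Summable (fun n => b n * x ^ n) → 0 ≤ δ →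
        ‖z‖ ≤ x * Real.exp (c₀' * δ) → (∀ s : ℝ, 1 / 2 ≤ s → s ≤ 2 →
          ‖1 + (s : ℂ) * z ^ 2‖ ≤ (1 + s * x ^ 2) * Real.exp (-δ)) →
        θ * μ * (‖z‖ * (1 + ‖z‖ ^ 2) ^ c₀') ≤ θ₂ →
        ‖P z‖ ≤ (∑' n, b n * x ^ n) + D) ∧
      (∀ z : ℂ, Summable (fun n => b n * ‖z‖ ^ n) →
        ‖P z - ∑ n ∈ range (N + 1), (az F n : ℂ) * z ^ n‖ ≤
          ∑' n, b (n + (N + 1)) * ‖z‖ ^ (n + (N + 1))) := by
    intro N
    obtain ⟨ι, i1, i2, Λ, hCF, hL⟩ := hfewN N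
    refine ex_P3 μ c₀' θ C C₀ p hc₀' hθ hμ hC hC₀ θ₂ h20 h21 F b hF hF0 hb hr N ι Λ hCF
      fun m hm => ?_
    refine le_trans (Finset.sum_le_sum fun i _ => ?_) (hL m hm)
    have h1 : (SW m).filter (fun w => ((Sl (Λ i) 0 0 w).card : ℝ) < c₀' * m) ⊆
        (SW m).filter (fun w => ((Sl (Λ i) 0 0 w).card : ℝ) < c₀ * m) := by
      intro w hw
      rw [Finset.mem_filter] at hw ⊢
      refine ⟨hw.1, hw.2.trans_le ?_⟩
      exact mul_le_mul_of_nonneg_right hcc (Nat.cast_nonneg m)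
    exact_mod_cast Finset.card_le_card h1
  choose P hP1 hP2 hP3 hP4 using hexP
  -- the size of the points of the domain
  have hsize : ∀ z ∈ Om c μ 2, θ * μ * (‖z‖ * (1 + ‖z‖ ^ 2) ^ c₀') ≤ θ₂ := by
    intro z hz
    have h1 : μ * ‖z‖ < 1 + c * (1 - cs 2 z) := hz
    have h2 := abs_le.1 (hcs z)
    have h3 : μ * ‖z‖ ≤ 1 + 2 * c := by nlinarith [h2.1]
    have h4 : ‖z‖ ≤ 2 := by
      have h5 : ‖z‖ ≤ μ * ‖z‖ := by nlinarith [norm_nonneg z]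
      linarith
    have h5 : (1 + ‖z‖ ^ 2) ^ c₀' ≤ (1 + 2 ^ 2 : ℝ) ^ c₀' := by
      refine Real.rpow_le_rpow (by positivity) ?_ hc₀'.le
      have := pow_le_pow_left₀ (norm_nonneg z) h4 2
      linarith
    calc θ * μ * (‖z‖ * (1 + ‖z‖ ^ 2) ^ c₀') = θ * ((μ * ‖z‖) * (1 + ‖z‖ ^ 2) ^ c₀') := by
          ring
      _ ≤ θ * ((1 + 2 * c) * (1 + 2 ^ 2) ^ c₀') := by
          refine mul_le_mul_of_nonneg_left (mul_le_mul h3 h5 (by positivity) (by positivity)) hθ.le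
      _ ≤ θ₂ := hθ₂ c hc hcc2
  have hxx : ∀ z : ℂ, μ * xx c μ 2 z = 1 - c * (1 - cs 2 z) := by
    intro z
    unfold xx
    field_simp
  have hxs : ∀ z ∈ Om c μ 2, cs 2 z < 1 → Summable (fun n => b n * xx c μ 2 z ^ n) := by
    intro z hz hz1
    refine hS _ (hangc c hc hcc1 z hz).1.le ?_
    rw [hxx]
    nlinarith
  -- the bound
  have hB : ∀ N, ∀ z ∈ Om c μ 2, cs 2 z < 1 →
      ‖P N z‖ ≤ (∑' n, b n * xx c μ 2 z ^ n) + D := by
    intro N z hz hz1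
    obtain ⟨hx0, hx1⟩ := hangc c hc hcc1 z hz
    have hs := hxs z hz hz1
    rcases le_or_gt ‖z‖ (xx c μ 2 z) with h | h
    · have := hP2 N z _ hx0.le hs h
      linarith
    · obtain ⟨h1, h2⟩ := hx1 h
      have := hP3 N z _ (k * (1 - cs 2 z)) hx0.le hs
        (mul_nonneg hk.le (by linarith)) h1 h2 (hsize z hz)
      linarith
  -- local boundedness
  have hloc : ∀ z ∈ Om c μ 2, ∃ r B : ℝ, 0 < r ∧
      ∀ N, ∀ z' ∈ Metric.ball z r ∩ Om c μ 2, ‖P N z'‖ ≤ B := by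
    intro z hz
    rcases lt_or_ge (μ * ‖z‖) 1 with h | h
    · have h1 : ‖z‖ < 1 / μ := by
        rw [lt_div_iff₀ hμ0, mul_comm]
        exact h
      obtain ⟨x, hx1, hx2⟩ := exists_between h1
      have hx0 : 0 ≤ x := (norm_nonneg z).trans hx1.le
      have hx3 : μ * x < 1 := by
        rw [lt_div_iff₀ hμ0, mul_comm] at hx2
        exact hx2
      refine ⟨x - ‖z‖, ∑' n, b n * x ^ n, by linarith, fun N z' hz' => ?_⟩
      refine hP2 N z' x hx0 (hS x hx0 hx3) ?_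
      have h2 : dist z' z < x - ‖z‖ := hz'.1
      rw [dist_eq_norm] at h2
      have h3 : ‖z'‖ ≤ ‖z' - z‖ + ‖z‖ := by
        have := norm_add_le (z' - z) z
        rwa [sub_add_cancel] at this
      linarith
    · have hz0 : z ≠ 0 := by
        rintro rfl
        simp at h
        linarith
      have hz1 : cs 2 z < 1 := by
        have h1 : μ * ‖z‖ < 1 + c * (1 - cs 2 z) := hz
        by_contra h2
        push Not at h2
        nlinarith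
      set q : ℝ := (1 + cs 2 z) / 2 with hq
      have hq1 : cs 2 z < q := by rw [hq]; linarith
      have hq2 : q < 1 := by rw [hq]; linarith
      have h1 : ∀ᶠ z' in 𝓝 z, cs 2 z' < q := (hcsc z hz0).eventually_lt_const hq1
      obtain ⟨r, hr, hr1⟩ := Metric.eventually_nhds_iff.1 h1
      have hcz := abs_le.1 (hcs z)
      have hX0 : 0 ≤ (1 - c * (1 - q)) / μ := by
        refine div_nonneg ?_ hμ0.le
        have : c * (1 - q) ≤ 1 / 4 * 1 :=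
          mul_le_mul hc4 (by rw [hq]; linarith [hcz.1]) (by linarith) (by norm_num)
        linarith
      have hX1 : μ * ((1 - c * (1 - q)) / μ) < 1 := by
        rw [mul_div_cancel₀ _ hμ0.ne']
        nlinarith
      refine ⟨r, (∑' n, b n * ((1 - c * (1 - q)) / μ) ^ n) + D, hr,
        fun N z' hz' => ?_⟩
      have hz'q : cs 2 z' < q := hr1 hz'.1
      have h2 := hB N z' hz'.2 (hz'q.trans hq2)
      refine h2.trans (add_le_add ?_ le_rfl)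
      refine (hxs z' hz'.2 (hz'q.trans hq2)).tsum_le_tsum (fun n => ?_) (hS _ hX0 hX1)
      refine mul_le_mul_of_nonneg_left ?_ (haa n)
      refine pow_le_pow_left₀ (hangc c hc hcc1 z' hz'.2).1.le ?_ n
      unfold xx
      refine div_le_div_of_nonneg_right ?_ hμ0.le
      nlinarith
  -- convergence in the disc
  have hDsum : ∀ z : ℂ, μ * ‖z‖ < 1 →
      Summable (fun n => (az F n : ℂ) * z ^ n) := by
    intro z hz
    refine Summable.of_norm ?_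
    have h1 := hS ‖z‖ (norm_nonneg z) hz
    refine Summable.of_nonneg_of_le (fun n => norm_nonneg _) (fun n => ?_) h1
    rw [norm_mul, norm_pow, Complex.norm_real, Real.norm_eq_abs]
    exact mul_le_mul_of_nonneg_right ((Finset.abs_sum_le_sum_abs _ _).trans (hb' n))
      (pow_nonneg (norm_nonneg _) n)
  have hDlim : ∀ z : ℂ, μ * ‖z‖ < 1 →
      Tendsto (fun N => P N z) atTop (𝓝 (∑' n, (az F n : ℂ) * z ^ n)) := by
    intro z hz
    have h1 := hS ‖z‖ (norm_nonneg z) hz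
    have h2 : Tendsto (fun N : ℕ => ∑' n, b (n + (N + 1)) * ‖z‖ ^ (n + (N + 1)))
        atTop (𝓝 0) :=
      (tendsto_sum_nat_add (fun n => b n * ‖z‖ ^ n)).comp (tendsto_add_atTop_nat 1)
    have h3 : Tendsto (fun N : ℕ => ∑ n ∈ range (N + 1), (az F n : ℂ) * z ^ n) atTop
        (𝓝 (∑' n, (az F n : ℂ) * z ^ n)) :=
      (hDsum z hz).hasSum.tendsto_sum_nat.comp (tendsto_add_atTop_nat 1)
    have h4 : Tendsto (fun N : ℕ => P N z - ∑ n ∈ range (N + 1), (az F n : ℂ) * z ^ n) atTop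
        (𝓝 0) :=
      squeeze_zero_norm (fun N => hP4 N z h1) h2
    have h5 := h4.add h3
    simp only [sub_add_cancel, zero_add] at h5
    exact h5
  have hDopen : IsOpen {z : ℂ | μ * ‖z‖ < 1} := isOpen_lt (by fun_prop) continuous_const
  obtain ⟨f, hf1, hf2⟩ := Pool.Agent.N45.AC.vit (Om c μ 2) {z : ℂ | μ * ‖z‖ < 1} hO1 hO2 hDopen
    ⟨0, by simp⟩ (fun z hz => hO3 z hz) P (fun N => (hP1 N).differentiableOn) hloc
    (fun z hz => ⟨_, hDlim z hz⟩)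
  refine ⟨f, hf1, fun z hz => ?_, fun z hz hz0 hz1 => ⟨hxs z hz hz1, ?_⟩⟩
  · have h1 := tendsto_nhds_unique (hf2 z (hO3 z hz)) (hDlim z hz)
    rw [h1]
    exact (hDsum z hz).hasSum
  · have h1 := (hf2 z hz).norm
    have h2 := le_of_tendsto h1 (Eventually.of_forall fun N => hB N z hz hz1)
    linarith

end

end Run7.h106.AW
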