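import Pool.Agent.Run7.h106.AW.Asm
import Pool.Agent.Run7.h106.AC.WidApp

/-!
# Analytic continuation: polygons weighted by the area
-/

set_option autoImplicit false
set_option linter.unusedVariables false

namespace Run7.h106.AW

open Pool.Agent.H976R2 Pool.Agent.H976R2.Dir Finset Filter Topology
open Pool.Agent.N929.EX Pool.Agent.N929.EY Pool.Agent.N929.EZ
open Pool.Agent.N929.AC (Om xx cs Ext om_star s_omg)
open Pool.Agent.H739K (KP ar lp)
open Run7.h106.AC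
open scoped Classical

noncomputable section

/-- the weight of a closed word: a power of `q` with the area as exponent -/
def Gq (t : ℝ) (w : List Dir) : ℝ := if 3 ≤ w.length then t ^ (ar w) else 0

theorem Gq_nonneg {t : ℝ} (ht : 0 ≤ t) (w : List Dir) : 0 ≤ Gq t w := by
  unfold Gq
  split_ifs
  · positivity
  · exact le_rfl

theorem Gq_le {t : ℝ} (ht : 0 ≤ t) (ht1 : t ≤ 1) (w : List Dir) : Gq t w ≤ 1 := by
  unfold Gq
  split_ifs
  · exact pow_le_one₀ ht ht1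
  · norm_num

/-- a power of a number of `[1/2, 1]` with exponent `±1` -/
theorem rp_one {t : ℝ} (ht : 1 / 2 ≤ t) (ht1 : t ≤ 1) {a : ℝ} (ha : |a| = 1) :
    1 / 2 ≤ t ^ a ∧ t ^ a ≤ 2 := by
  have ht0 : 0 < t := by linarith
  rcases (abs_eq zero_le_one).1 ha with h | h
  · rw [h, Real.rpow_one]
    constructor <;> linarith
  · rw [h, Real.rpow_neg ht0.le, Real.rpow_one]
    refine ⟨?_, ?_⟩
    · have := (one_le_inv₀ ht0).2 ht1
      linarith
    · rw [inv_le_comm₀ ht0 (by norm_num)]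
      linarith

theorem gq_hq {t : ℝ} (ht : 1 / 2 ≤ t) (ht1 : t ≤ 1) : Hq (fun w => Pool.Agent.N929.EZ.cl w * Gq t w) := by
  have ht0 : 0 < t := by linarith
  intro L hL st fl hfl w hw
  have hcl : ∀ U ⊆ Sl L 0 0 w, Pool.Agent.N929.EZ.cl (fl w U) = Pool.Agent.N929.EZ.cl w := fun U hU => cl_fl hfl hw hU
  by_cases hs : sq w = 1
  · by_cases h3 : 3 ≤ w.length
    · refine ⟨fun q => t ^ sg w q, fun q => rp_one ht ht1 (sg_abs w q), fun U hU => ?_⟩
      have h1 := ar_fl hL hfl hw h3 hs hU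
      have h2 : Gq t (fl w U) = Gq t w * ∏ q ∈ U, t ^ sg w q := by
        unfold Gq
        rw [if_pos (by rw [hfl.fl_len w U hw hU]; omega), if_pos h3,
          ← Real.rpow_natCast, h1, Real.rpow_add ht0, Real.rpow_natCast,
          Real.rpow_sum_of_pos ht0]
      show Pool.Agent.N929.EZ.cl (fl w U) * Gq t (fl w U) = _
      rw [hcl U hU, h2]
      ring
    · refine ⟨fun _ => 1, fun q => by norm_num, fun U hU => ?_⟩
      rw [no_slots (L := L) h3, subset_empty] at hU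
      subst hU
      rw [hfl.fl_empty w hw, prod_empty, mul_one]
  · refine ⟨fun _ => 1, fun q => by norm_num, fun U hU => ?_⟩
    have hcw : Pool.Agent.N929.EZ.cl w = 0 := by unfold Pool.Agent.N929.EZ.cl; rw [if_neg hs]
    show Pool.Agent.N929.EZ.cl (fl w U) * Gq t (fl w U) = Pool.Agent.N929.EZ.cl w * Gq t w * _
    rw [hcl U hU, hcw, zero_mul, zero_mul, zero_mul]

/-- analytic continuation for polygons weighted by the area -/
theorem gq_ac : ∃ c : ℝ, 0 < c ∧ c ≤ 1 / 4 ∧ ∃ C : ℝ, 0 < C ∧ ∀ t : ℝ, 1 / 2 ≤ t → t ≤ 1 →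
    ∃ f : ℂ → ℂ, Ext c H981.mu 2 (fun n => ∑ w ∈ KP n, Gq t w) f ∧
      ∀ z ∈ Om c H981.mu 2, z ≠ 0 → cs 2 z < 1 →
        ‖f z‖ ≤ C + ‖f (xx c H981.mu 2 z : ℂ)‖ := by
  obtain ⟨μ, K, hμ, hK, hlow, hupp, -⟩ := s_gen
  have hmu := mu_eq hμ hK hlow hupp
  obtain ⟨c, hc, hc4, h⟩ := acz3 (show 1 ≤ μ by linarith) hK hupp
  rw [hmu] at h
  obtain ⟨C, hC, h'⟩ := h 1 0 zero_le_one
  refine ⟨c, hc, hc4, C, hC, fun t ht ht1 => ?_⟩
  have ht0 : 0 ≤ t := by linarith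
  have hF0 : ∀ w, 0 ≤ Pool.Agent.N929.EZ.cl w * Gq t w := fun w => mul_nonneg (cl_nonneg w) (Gq_nonneg ht0 w)
  have hF1 : ∀ w, Pool.Agent.N929.EZ.cl w * Gq t w ≤ 1 := fun w =>
    mul_le_one₀ (cl_le w) (Gq_nonneg ht0 w) (Gq_le ht0 ht1 w)
  have e : ∀ n, ∑ w ∈ SW n, Pool.Agent.N929.EZ.cl w * Gq t w = ∑ w ∈ KP n, Gq t w := fun n => sum_cl n (Gq t)
  obtain ⟨f, f1, f2, f3⟩ := h' (fun w => Pool.Agent.N929.EZ.cl w * Gq t w) (fun n => ∑ w ∈ SW n, Pool.Agent.N929.EZ.cl w * Gq t w)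
    (fun n w _ => by
      rw [abs_of_nonneg (hF0 w), pow_zero, mul_one]
      exact hF1 w)
    hF0 (fun n => le_rfl)
    (fun n => by
      rw [pow_zero, mul_one, one_mul]
      have := sum_le_card_nsmul (SW n) (fun w => Pool.Agent.N929.EZ.cl w * Gq t w) 1 fun w _ => hF1 w
      rwa [nsmul_eq_mul, mul_one] at this)
    (gq_hq ht ht1)
  have hE : Ext c H981.mu 2 (fun n => ∑ w ∈ KP n, Gq t w) f := by
    refine ⟨f1, fun z hz => ?_⟩
    have h1 := f2 z hz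
    have e' : ∀ n, az (fun w => Pool.Agent.N929.EZ.cl w * Gq t w) n = ∑ w ∈ KP n, Gq t w := fun n => e n
    simp only [e'] at h1
    exact h1
  refine ⟨f, hE, fun z hz hz0 hz1 => ?_⟩
  obtain ⟨-, h2⟩ := f3 z hz hz0 hz1
  have hu : ∀ n, 0 ≤ ∑ w ∈ KP n, Gq t w := fun n => sum_nonneg fun w _ => Gq_nonneg ht0 w
  have h4 := at_xx hc hc4 hu hE hz1 1 zero_le_one
  simp only [one_mul] at h4
  simp only [e] at h2
  rw [h4] at h2
  exact h2

/-- the sum of `t ^ area` over loops -/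
theorem loop_Gq {n : ℕ} (hn : 2 ≤ n) (t : ℝ) :
    ∑ᶠ f ∈ {f : ZMod (2 * n) → ℤ × ℤ | Pool.Agent.H924P.IsLoop (2 * n) f},
      t ^ (Pool.Agent.H924P.area (2 * n) f) = ∑ w ∈ KP (2 * n - 1), Gq t w := by
  rw [loop_sum hn]
  refine sum_congr rfl fun w hw => ?_
  obtain ⟨h1, h2, h3⟩ := width_word hn hw
  unfold Gq
  have hl := (KP_mem hw).2.2
  rw [if_pos (by omega), h3]

/-- the bound for the derivative of the primitive -/
theorem deriv_add {c : ℝ} (hc : 0 < c) (hc4 : c ≤ 1 / 4) {f F : ℂ → ℂ} {C : ℝ} (hC : 0 ≤ C)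
    (F1 : ∀ z ∈ Om c H981.mu 2, HasDerivAt F (f z / 2) z)
    (f2 : ∀ z ∈ Om c H981.mu 2, z ≠ 0 → cs 2 z < 1 →
        ‖f z‖ ≤ C + ‖f (xx c H981.mu 2 z : ℂ)‖) :
    ∀ z ∈ Om c H981.mu 2, z ≠ 0 → cs 2 z < 1 →
      ‖deriv F z‖ ≤ C + ‖deriv F (xx c H981.mu 2 z : ℂ)‖ := by
  intro z hz hz0 hz1
  have hμ : 1 ≤ H981.mu := by linarith [Pool.Agent.H739K.mu_ge]
  have hμ0 : 0 < H981.mu := by linarith
  have hx : H981.mu * xx c H981.mu 2 z = 1 - c * (1 - cs 2 z) := by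
    unfold xx
    field_simp
  have habs := abs_le.1 (cs_abs 2 z)
  have hx0 : 0 < xx c H981.mu 2 z := by
    unfold xx
    refine div_pos ?_ hμ0
    nlinarith
  have hxm : (xx c H981.mu 2 z : ℂ) ∈ Om c H981.mu 2 := by
    refine (dom_facts hc).2.2.1 _ ?_
    rw [Complex.norm_real, Real.norm_of_nonneg hx0.le, hx]
    nlinarith
  rw [(F1 z hz).deriv, (F1 _ hxm).deriv]
  have h1 := f2 z hz hz0 hz1
  rw [norm_div, norm_div, Complex.norm_ofNat]
  have h3 := norm_nonneg (f (xx c H981.mu 2 z : ℂ))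
  linarith

end

end Run7.h106.AW
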