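import Pool.Agent.Run7.h106.AW.Asm5
import Pool.Agent.Run7.h106.AW.Poly

/-!
# Analytic continuation relative to a free radius
-/

set_option autoImplicit false
set_option linter.unusedVariables false

namespace Run7.h106.AW

open Pool.Agent.H976R2 Pool.Agent.H976R2.Dir Finset Filter Topology
open Pool.Agent.N929.EX Pool.Agent.N929.EY Pool.Agent.N929.EZ
open Pool.Agent.N929.AC (Om xx cs Ext om_star s_omg)
open Pool.Agent.H739K (KP ar lp)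
open Run7.h106.AC
open scoped Classical

noncomputable section

/-- the domain -/
theorem dom_nu {c ν : ℝ} (hc : 0 < c) (hν : 1 ≤ ν) : IsOpen (Om c ν 2) ∧
    IsPreconnected (Om c ν 2) ∧ (∀ z : ℂ, ν * ‖z‖ < 1 → z ∈ Om c ν 2) ∧
    ∀ z : ℂ, ν * ‖z‖ = 1 → z ≠ ((1 / ν : ℝ) : ℂ) →
      z ≠ ((-(1 / ν) : ℝ) : ℂ) → z ∈ Om c ν 2 := by
  have hμ0 : 0 < ν := by linarith
  obtain ⟨o1, o2, o3, -⟩ := s_omg c ν 2 hc hν (by norm_num)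
  refine ⟨o1, o2, o3, fun z hz z1 z2 => ?_⟩
  refine (Pool.Agent.N929.AC.mem_Om hc hz fun h3 => ?_).1
  have hn : ‖z‖ = 1 / ν := by field_simp; linarith
  rw [hn] at h3
  rcases sq_eq_sq_iff_eq_or_eq_neg.1 h3 with h4 | h4
  · exact z1 h4
  · exact z2 (by rw [h4]; push_cast; rfl)

/-- the comparison point -/
theorem xx_nu {c ν : ℝ} (hc : 0 < c) (hc4 : c ≤ 1 / 4) (hν : 1 ≤ ν) {z : ℂ} (hz1 : cs 2 z < 1) :
    0 < xx c ν 2 z ∧ ν * xx c ν 2 z < 1 := by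
  have hμ0 : 0 < ν := by linarith
  have habs := abs_le.1 (cs_abs 2 z)
  have hx : ν * xx c ν 2 z = 1 - c * (1 - cs 2 z) := by
    unfold xx
    field_simp
  refine ⟨?_, ?_⟩
  · unfold xx
    refine div_pos ?_ hμ0
    nlinarith
  · rw [hx]
    nlinarith

/-- the value at the comparison point -/
theorem at_nu {c ν : ℝ} (hc : 0 < c) (hc4 : c ≤ 1 / 4) (hν : 1 ≤ ν) {u : ℕ → ℝ}
    (hu : ∀ n, 0 ≤ u n) {f : ℂ → ℂ}
    (hf : ∀ z : ℂ, ν * ‖z‖ < 1 → HasSum (fun n => (u n : ℂ) * z ^ n) (f z)) {z : ℂ}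
    (hz1 : cs 2 z < 1) :
    ∑' n, u n * xx c ν 2 z ^ n = ‖f (xx c ν 2 z : ℂ)‖ := by
  obtain ⟨hx0, hx⟩ := xx_nu hc hc4 hν hz1
  have h1 := hf (xx c ν 2 z : ℂ) (by
    rw [Complex.norm_real, Real.norm_of_nonneg hx0.le]
    exact hx)
  have h5 : f (xx c ν 2 z : ℂ) = ((∑' n, u n * xx c ν 2 z ^ n : ℝ) : ℂ) := by
    rw [← h1.tsum_eq, Complex.ofReal_tsum]
    refine tsum_congr fun n => ?_
    push_cast
    rfl
  rw [h5, Complex.norm_real, Real.norm_of_nonneg]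
  exact tsum_nonneg fun n => mul_nonneg (hu n) (pow_nonneg hx0.le n)

/-- the primitive of the series -/
theorem prim_nu {c ν : ℝ} (hc : 0 < c) (hν : 1 ≤ ν) {u : ℕ → ℝ} {f : ℂ → ℂ} (h : Ext c ν 2 u f) :
    ∃ F : ℂ → ℂ, (∀ z ∈ Om c ν 2, HasDerivAt F (f z / 2) z) ∧
      ∀ z : ℂ, ν * ‖z‖ < 1 →
        HasSum (fun n => ((u n / (2 * ((n : ℝ) + 1)) : ℝ) : ℂ) * z ^ (n + 1)) (F z) := by
  have hμ0 : 0 < ν := by linarith
  obtain ⟨o1, o2, o3, -⟩ := s_omg c ν 2 hc hν (by norm_num)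
  have h0 : (0 : ℂ) ∈ Om c ν 2 := o3 0 (by simp)
  have hball : ∀ z : ℂ, z ∈ Metric.ball (0 : ℂ) (1 / ν) ↔ ν * ‖z‖ < 1 := by
    intro z
    rw [mem_ball_zero_iff, lt_div_iff₀ hμ0, mul_comm]
  obtain ⟨F, f1, f3, -, f2⟩ := Pool.Agent.N353.AC.prim (Om c ν 2) (1 / ν)
    (fun n => (u n : ℂ)) f o1
    (fun z hz t ht0 ht1 => om_star hν h0 z hz t ht0 ht1) (by positivity)
    (fun z hz => o3 z ((hball z).1 hz)) h.1 (fun z hz => h.2 z ((hball z).1 hz))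
  refine ⟨fun z => F z / 2, fun z hz => (f3 z hz).div_const 2, fun z hz => ?_⟩
  have g1 := (f2 z ((hball z).2 hz)).div_const 2
  refine (congrArg (fun g => HasSum g (F z / 2)) ?_).mp g1
  funext n
  have e3 : ((n : ℂ) + 1) ≠ 0 := Nat.cast_add_one_ne_zero n
  push_cast
  field_simp

/-- the series in terms of the polygons of perimeter `2 (n + 2)` -/
theorem poly_nu {c ν : ℝ} (hc : 0 < c) (hν : 1 ≤ ν) {G : List Dir → ℝ}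
    (hG0 : ∀ w, ¬ 3 ≤ w.length → G w = 0) {f : ℂ → ℂ}
    (h : Ext c ν 2 (fun n => ∑ w ∈ KP n, G w) f) :
    ∃ F : ℂ → ℂ, (∀ z ∈ Om c ν 2, HasDerivAt F (f z / 2) z) ∧
      ∀ z : ℂ, ν * ‖z‖ < 1 →
        HasSum (fun n : ℕ => (((∑ w ∈ KP (2 * (n + 2) - 1), G w) /
          (4 * ((n + 2 : ℕ) : ℝ)) : ℝ) : ℂ) * z ^ (2 * (n + 2))) (F z) := by
  obtain ⟨F, h1, h2⟩ := prim_nu hc hν h
  refine ⟨F, h1, fun z hz => ?_⟩
  have h3 := h2 z hz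
  have hinj : Function.Injective (fun n : ℕ => 2 * (n + 2) - 1) := fun a b h => by
    simp only at h
    omega
  rw [← hinj.hasSum_iff] at h3
  · refine (congrArg (fun g => HasSum g (F z)) ?_).mp h3
    funext n
    show (((∑ w ∈ KP (2 * (n + 2) - 1), G w) / (2 * (((2 * (n + 2) - 1 : ℕ) : ℝ) + 1)) : ℝ) : ℂ) *
      z ^ (2 * (n + 2) - 1 + 1) = _
    have e1 : 2 * (n + 2) - 1 + 1 = 2 * (n + 2) := by omega
    have e2 : (((2 * (n + 2) - 1 : ℕ) : ℝ) + 1) = 2 * ((n + 2 : ℕ) : ℝ) := by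
      have : ((2 * (n + 2) - 1 + 1 : ℕ) : ℝ) = ((2 * (n + 2) : ℕ) : ℝ) := by rw [e1]
      push_cast at this ⊢
      linarith
    rw [e1, e2]
    congr 3
    ring
  · intro m hm
    have e : ∑ w ∈ KP m, G w = 0 := by
      rcases Nat.mod_two_eq_zero_or_one m with he | ho
      · rw [KP_odd he, sum_empty]
      · have hm3 : ¬ 3 ≤ m := fun h3 => hm ⟨(m + 1) / 2 - 2, by simp only; omega⟩
        refine sum_eq_zero fun w hw => hG0 w ?_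
        rw [(KP_mem hw).2.2]
        exact hm3
    simp [e]

/-- the bound for the derivative of the primitive -/
theorem deriv_nu {c ν : ℝ} (hc : 0 < c) (hc4 : c ≤ 1 / 4) (hν : 1 ≤ ν) {f F : ℂ → ℂ} {C : ℝ}
    (hC : 0 ≤ C) (F1 : ∀ z ∈ Om c ν 2, HasDerivAt F (f z / 2) z)
    (f2 : ∀ z ∈ Om c ν 2, z ≠ 0 → cs 2 z < 1 → ‖f z‖ ≤ C + ‖f (xx c ν 2 z : ℂ)‖) :
    ∀ z ∈ Om c ν 2, z ≠ 0 → cs 2 z < 1 →
      ‖deriv F z‖ ≤ C + ‖deriv F (xx c ν 2 z : ℂ)‖ := by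
  intro z hz hz0 hz1
  obtain ⟨hx0, hx⟩ := xx_nu hc hc4 hν hz1
  have hxm : (xx c ν 2 z : ℂ) ∈ Om c ν 2 := by
    refine (dom_nu hc hν).2.2.1 _ ?_
    rw [Complex.norm_real, Real.norm_of_nonneg hx0.le]
    exact hx
  rw [(F1 z hz).deriv, (F1 _ hxm).deriv]
  have h1 := f2 z hz hz0 hz1
  rw [norm_div, norm_div, Complex.norm_ofNat]
  have h3 := norm_nonneg (f (xx c ν 2 z : ℂ))
  linarith

/-- analytic continuation for nonnegative functionals of product form, relative to a free radius -/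
theorem hq5 : ∃ κ : ℝ, 1 < κ ∧ κ ≤ 2 ∧ ∃ c : ℝ, 0 < c ∧ c ≤ 1 / 4 ∧ ∃ C : ℝ, 0 < C ∧
    ∀ ν : ℝ, H981.mu ≤ κ * ν → ν ≤ H981.mu → 1 ≤ ν ∧ ∀ F : List Dir → ℝ, (∀ w, 0 ≤ F w) →
      (∀ w, F w ≤ 1) → Hq F →
      (∀ x : ℝ, 0 ≤ x → ν * x < 1 → Summable (fun n => (∑ w ∈ SW n, F w) * x ^ n)) →
      ∃ f : ℂ → ℂ, Ext c ν 2 (fun n => ∑ w ∈ SW n, F w) f ∧
        ∀ z ∈ Om c ν 2, z ≠ 0 → cs 2 z < 1 →
          ‖f z‖ ≤ C + ‖f (xx c ν 2 z : ℂ)‖ := by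
  obtain ⟨μ, K, hμ, hK, hlow, hupp, -⟩ := s_gen
  have hmu := mu_eq hμ hK hlow hupp
  obtain ⟨κ, hκ1, hκ2, c, hc, hc4, h⟩ := acz5 (show 2 ≤ μ by linarith) hK hupp
  rw [hmu] at h hμ
  obtain ⟨C, hC, h'⟩ := h 1 0 zero_le_one
  refine ⟨κ, hκ1, hκ2, c, hc, hc4, C, hC, fun ν hν1 hν2 => ?_⟩
  have hν : 1 ≤ ν := by nlinarith
  refine ⟨hν, fun F hF0 hF1 hHq hS => ?_⟩
  obtain ⟨f, f1, f2, f3⟩ := h' ν hν1 hν2 F (fun n => ∑ w ∈ SW n, F w)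
    (fun n w _ => by
      rw [abs_of_nonneg (hF0 w), pow_zero, mul_one]
      exact hF1 w)
    hF0 (fun n => le_rfl) hS hHq
  have hE : Ext c ν 2 (fun n => ∑ w ∈ SW n, F w) f := ⟨f1, fun z hz => f2 z hz⟩
  refine ⟨f, hE, fun z hz hz0 hz1 => ?_⟩
  obtain ⟨-, h2⟩ := f3 z hz hz0 hz1
  rw [at_nu hc hc4 hν (fun n => sum_nonneg fun w _ => hF0 w) hE.2 hz1] at h2
  exact h2

end

end Run7.h106.AW
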